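import Mathlib

/-!
# Project CYC, second part: the algebra of the residues (Mathlib only)
-/

set_option autoImplicit false

namespace Pool.Agent.H14.CYC

open Finset
open scoped Real

theorem prod_pairs (f : ℕ → ℂ) (M : ℕ) :
    ∏ k ∈ range (2 * M + 1), f k = f 0 * ((∏ j ∈ range M, f (2 * j + 1)) *
      ∏ j ∈ range M, f (2 * M - (2 * j))) := by
  have h1 : ∏ k ∈ range (2 * M + 1), f k = f 0 * ((∏ j ∈ range M, f (2 * j + 1)) *
      ∏ j ∈ range M, f (2 * j + 2)) := by
    induction M with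
    | zero => simp
    | succ M ih =>
      rw [show 2 * (M + 1) + 1 = (2 * M + 1) + 1 + 1 by ring, Finset.prod_range_succ,
        Finset.prod_range_succ, ih, Finset.prod_range_succ, Finset.prod_range_succ]
      ring
  rw [h1]
  congr 2
  rw [← Finset.prod_range_reflect]
  apply Finset.prod_congr rfl
  intro j hj
  rw [Finset.mem_range] at hj
  congr 1
  omega

/-- the full product -/
theorem prod_fullC (M : ℕ) (φ : ℂ) :
    (∏ j ∈ range M, (2 * Complex.cos φ - 2 * Complex.cos (2 * π * (2 * j + 1) / (2 * M + 1)))) *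
      Complex.sin (φ / 2) = Complex.sin ((2 * M + 1) / 2 * φ) := by
  set r : ℕ := 2 * M + 1 with hr
  have hr0 : r ≠ 0 := by omega
  have hrc : (r : ℂ) ≠ 0 := by exact_mod_cast hr0
  have hrr : (2 * M + 1 : ℂ) = (r : ℂ) := by rw [hr]; push_cast; ring
  rw [hrr]
  set ζ := Complex.exp (2 * π * Complex.I / r) with hζd
  have hζ : IsPrimitiveRoot ζ r := Complex.isPrimitiveRoot_exp r hr0
  set w := Complex.exp (Complex.I * φ) with hwd
  have hw : w ≠ 0 := Complex.exp_ne_zero _
  have hζ0 : ζ ≠ 0 := Complex.exp_ne_zero _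
  have h1 : ∏ k ∈ range r, (w - ζ ^ k) = w ^ r - 1 := by
    have h := X_pow_sub_C_eq_prod (a := 1) (α := 1) hζ (by omega) (by simp)
    have h2 := congrArg (Polynomial.eval w) h
    rw [Polynomial.eval_prod] at h2
    simp only [Polynomial.eval_sub, Polynomial.eval_pow, Polynomial.eval_X, Polynomial.eval_C,
      mul_one] at h2
    exact h2.symm
  rw [hr, prod_pairs (fun k => w - ζ ^ k) M] at h1
  have hfac : ∀ j ∈ range M, (2 * Complex.cos φ - 2 * Complex.cos (2 * π * (2 * j + 1) / r)) =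
      (w - ζ ^ (2 * j + 1)) * (w - ζ ^ (2 * M - 2 * j)) * w⁻¹ := by
    intro j hj
    rw [Finset.mem_range] at hj
    set z : ℂ := 2 * π * (2 * j + 1) / r with hz
    have e1 : ζ ^ (2 * j + 1) = Complex.exp (z * Complex.I) := by
      rw [hζd, ← Complex.exp_nat_mul]
      congr 1
      rw [hz]
      push_cast
      ring
    have e2 : ζ ^ (2 * M - 2 * j) = Complex.exp (-z * Complex.I) := by
      have h3 : ζ ^ (2 * M - 2 * j) * ζ ^ (2 * j + 1) = 1 := by
        rw [← pow_add, show 2 * M - 2 * j + (2 * j + 1) = r by omega, hζ.pow_eq_one]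
      have h4 : Complex.exp (-z * Complex.I) * Complex.exp (z * Complex.I) = 1 := by
        rw [← Complex.exp_add]
        simp
      rw [e1] at h3
      exact mul_right_cancel₀ (Complex.exp_ne_zero _) (h3.trans h4.symm)
    have e4 : 2 * Complex.cos φ = w + w⁻¹ := by
      rw [hwd, ← Complex.exp_neg, Complex.cos]
      rw [show φ * Complex.I = Complex.I * φ by ring, show -φ * Complex.I = -(Complex.I * φ) by ring]
      ring
    have e5 : 2 * Complex.cos z = Complex.exp (z * Complex.I) +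
        Complex.exp (-z * Complex.I) := by
      rw [Complex.cos]
      ring
    rw [e4, e5, e1, e2]
    have hm : Complex.exp (z * Complex.I) * Complex.exp (-z * Complex.I) = 1 := by
      rw [← Complex.exp_add]; simp
    have hww : w * w⁻¹ = 1 := mul_inv_cancel₀ hw
    linear_combination (-w⁻¹) * hm +
      (Complex.exp (z * Complex.I) + Complex.exp (-z * Complex.I) - w) * hww
  rw [Finset.prod_congr rfl hfac, Finset.prod_mul_distrib, Finset.prod_mul_distrib,
    Finset.prod_const, Finset.card_range]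
  simp only [pow_zero] at h1
  set y := Complex.exp (Complex.I * (φ / 2)) with hy
  have hy0 : y ≠ 0 := Complex.exp_ne_zero _
  have hwy : w = y ^ 2 := by
    rw [hwd, hy, ← Complex.exp_nat_mul]
    congr 1
    push_cast
    ring
  have hs : Complex.sin (φ / 2) = (w - 1) * y⁻¹ / (2 * Complex.I) := by
    rw [Complex.sin, hwy]
    have e1 : Complex.exp (-(φ / 2) * Complex.I) = y⁻¹ := by
      rw [hy, ← Complex.exp_neg]
      congr 1
      ring
    have e2 : Complex.exp (φ / 2 * Complex.I) = y := by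
      rw [hy]
      congr 1
      ring
    rw [e1, e2]
    have hI : Complex.I ≠ 0 := Complex.I_ne_zero
    field_simp
    rw [Complex.I_sq]
    ring
  have hs2 : Complex.sin (r / 2 * φ) = (w ^ r - 1) * (y ^ r)⁻¹ / (2 * Complex.I) := by
    rw [Complex.sin, hwy]
    have e2 : Complex.exp (r / 2 * φ * Complex.I) = y ^ r := by
      rw [hy, ← Complex.exp_nat_mul]
      congr 1
      ring
    have e1 : Complex.exp (-(r / 2 * φ) * Complex.I) = (y ^ r)⁻¹ := by
      rw [← e2, ← Complex.exp_neg]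
      congr 1
      ring
    rw [e1, e2]
    have hI : Complex.I ≠ 0 := Complex.I_ne_zero
    have hyr : y ^ r ≠ 0 := pow_ne_zero _ hy0
    have : (y ^ 2) ^ r = (y ^ r) ^ 2 := by rw [← pow_mul, ← pow_mul, mul_comm]
    rw [this]
    field_simp
    rw [Complex.I_sq]
    ring
  rw [hs, hs2, ← h1]
  have e6 : (y ^ r)⁻¹ = (w⁻¹) ^ M * y⁻¹ := by
    rw [hr, hwy]
    rw [← inv_pow, pow_succ, pow_mul, inv_pow]
  rw [e6]
  ring

theorem prod_fullR (M : ℕ) (φ : ℝ) :
    (∏ j ∈ range M, (2 * Real.cos φ - 2 * Real.cos (2 * π * (2 * j + 1) / (2 * M + 1)))) *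
      Real.sin (φ / 2) = Real.sin ((2 * M + 1) / 2 * φ) := by
  have h := prod_fullC M (φ : ℂ)
  have h2 : (((∏ j ∈ range M, (2 * Real.cos φ - 2 * Real.cos (2 * π * (2 * j + 1) / (2 * M + 1)))) *
      Real.sin (φ / 2) : ℝ) : ℂ) = ((Real.sin ((2 * M + 1) / 2 * φ) : ℝ) : ℂ) := by
    push_cast
    exact h
  exact_mod_cast h2

/-- the derivative of the full product at a zero -/
theorem der_full (M j : ℕ) (hj : j < M) (θ : ℕ → ℝ)
    (hθ : ∀ i, θ i = 2 * π * (2 * i + 1) / (2 * M + 1)) :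
    (2 * Real.sin (θ j / 2)) ^ 2 * (2 * Real.cos (θ j / 2)) *
      ∏ i ∈ (range M).erase j, (2 * Real.cos (θ j) - 2 * Real.cos (θ i)) = 2 * M + 1 := by
  have hjm : j ∈ range M := Finset.mem_range.2 hj
  have hr : (2 * (M : ℝ) + 1) ≠ 0 := by positivity
  have h0 : ∀ φ : ℝ, ((2 * Real.cos φ - 2 * Real.cos (θ j)) *
      ∏ i ∈ (range M).erase j, (2 * Real.cos φ - 2 * Real.cos (θ i))) * Real.sin (φ / 2) =
        Real.sin ((2 * M + 1) / 2 * φ) := by
    intro φ
    rw [Finset.mul_prod_erase (range M) (fun i => 2 * Real.cos φ - 2 * Real.cos (θ i)) hjm,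
      ← prod_fullR M φ]
    congr 1
    exact Finset.prod_congr rfl fun i _ => by rw [hθ i]
  have hdG : DifferentiableAt ℝ
      (fun φ : ℝ => ∏ i ∈ (range M).erase j, (2 * Real.cos φ - 2 * Real.cos (θ i))) (θ j) := by
    have h1 : DifferentiableAt ℝ (∏ i ∈ (range M).erase j,
        (fun φ : ℝ => 2 * Real.cos φ - 2 * Real.cos (θ i))) (θ j) :=
      DifferentiableAt.finsetProd fun i _ =>
        (Real.differentiable_cos.differentiableAt.const_mul 2).sub_const _
    convert h1 using 1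
    funext φ
    rw [Finset.prod_apply]
  have d1 : HasDerivAt (fun φ : ℝ => 2 * Real.cos φ - 2 * Real.cos (θ j)) (2 * -Real.sin (θ j)) (θ j) :=
    ((Real.hasDerivAt_cos (θ j)).const_mul 2).sub_const _
  have d2 : HasDerivAt (fun φ : ℝ => Real.sin (φ / 2)) (Real.cos (θ j / 2) * (1 / 2)) (θ j) :=
    (((hasDerivAt_id (θ j)).div_const 2)).sin
  have d3 : HasDerivAt (fun φ : ℝ => Real.sin ((2 * M + 1) / 2 * φ))
      (Real.cos ((2 * M + 1) / 2 * θ j) * ((2 * M + 1) / 2 * 1)) (θ j) :=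
    (((hasDerivAt_id (θ j)).const_mul ((2 * (M : ℝ) + 1) / 2))).sin
  have d4 := (d1.mul hdG.hasDerivAt).mul d2
  have d5 : (fun φ : ℝ => Real.sin ((2 * M + 1) / 2 * φ)) =
      ((fun φ : ℝ => 2 * Real.cos φ - 2 * Real.cos (θ j)) *
        (fun φ : ℝ => ∏ i ∈ (range M).erase j, (2 * Real.cos φ - 2 * Real.cos (θ i)))) *
          (fun φ : ℝ => Real.sin (φ / 2)) := by
    funext φ
    exact (h0 φ).symm
  rw [d5] at d3
  have h1 := d3.unique d4
  have h2 : Real.cos ((2 * M + 1) / 2 * θ j) = -1 := by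
    rw [hθ j, show (2 * (M : ℝ) + 1) / 2 * (2 * π * (2 * j + 1) / (2 * M + 1)) =
      π + j * (2 * π) by field_simp; ring, Real.cos_add_nat_mul_two_pi, Real.cos_pi]
  have h3 : Real.sin (θ j) = 2 * Real.sin (θ j / 2) * Real.cos (θ j / 2) := by
    rw [← Real.sin_two_mul]
    congr 1
    ring
  simp only [Pi.mul_apply, sub_self, zero_mul, add_zero] at h1
  rw [h2, h3] at h1
  linarith

/-- the term of the sum -/
theorem term_id (M k j : ℕ) (hk : k ≤ M) (hj : j < M - k) (θ : ℕ → ℝ)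
    (hθ : ∀ i, θ i = 2 * π * (2 * i + 1) / (2 * M + 1)) :
    ((2 * Real.sin (2 * π * (((M - 1 - j : ℕ) : ℝ) + 1) / (2 * M + 1))) ^ 2 *
      ∏ l ∈ range k, (-2 * Real.cos (4 * π * (((M - 1 - j : ℕ) : ℝ) + 1) / (2 * M + 1)) -
        -2 * Real.cos (4 * π * ((l : ℝ) + 1) / (2 * M + 1)))) * (2 * Real.cos (θ j / 2)) *
      ∏ i ∈ (range (M - k)).erase j, (2 * Real.cos (θ j) - 2 * Real.cos (θ i)) =
        (-1) ^ k * (2 * M + 1) := by
  have hr : (2 * (M : ℝ) + 1) ≠ 0 := by positivity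
  have hjM : j < M := lt_of_lt_of_le hj (Nat.sub_le _ _)
  have c1 : ((M - 1 - j : ℕ) : ℝ) + 1 = M - j := by
    have : (M - 1 - j) + 1 + j = M := by omega
    have h := congrArg (fun n : ℕ => (n : ℝ)) this
    push_cast at h
    linarith
  have s1 : Real.sin (2 * π * ((M : ℝ) - j) / (2 * M + 1)) = Real.sin (θ j / 2) := by
    rw [← Real.sin_pi_sub, hθ j]
    congr 1
    field_simp
    ring
  have s2 : ∀ i : ℕ, Real.cos (4 * π * ((M : ℝ) - i) / (2 * M + 1)) = Real.cos (θ i) := by
    intro i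
    rw [← Real.cos_two_pi_sub, hθ i]
    congr 1
    field_simp
    ring
  have s3 : ∏ l ∈ range k, (-2 * Real.cos (4 * π * ((M : ℝ) - j) / (2 * M + 1)) -
        -2 * Real.cos (4 * π * ((l : ℝ) + 1) / (2 * M + 1))) =
      (-1) ^ k * ∏ i ∈ Ico (M - k) M, (2 * Real.cos (θ j) - 2 * Real.cos (θ i)) := by
    rw [show ((-1 : ℝ)) ^ k = ∏ l ∈ range k, (-1 : ℝ) by rw [prod_const, card_range],
      Finset.prod_Ico_eq_prod_range, show M - (M - k) = k by omega,
      ← Finset.prod_range_reflect (fun i => 2 * Real.cos (θ j) - 2 * Real.cos (θ (M - k + i))),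
      ← Finset.prod_mul_distrib]
    refine Finset.prod_congr rfl fun l hl => ?_
    rw [Finset.mem_range] at hl
    have c2 : ((M - k + (k - 1 - l) : ℕ) : ℝ) = M - (l + 1) := by
      have : (M - k + (k - 1 - l)) + (l + 1) = M := by omega
      have h := congrArg (fun n : ℕ => (n : ℝ)) this
      push_cast at h ⊢
      linarith
    have s4 := s2 (M - k + (k - 1 - l))
    rw [c2, show (M : ℝ) - (M - (l + 1)) = l + 1 by ring] at s4
    rw [s2 j, s4]
    ring
  have s5 : (∏ i ∈ Ico (M - k) M, (2 * Real.cos (θ j) - 2 * Real.cos (θ i))) *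
      ∏ i ∈ (range (M - k)).erase j, (2 * Real.cos (θ j) - 2 * Real.cos (θ i)) =
        ∏ i ∈ (range M).erase j, (2 * Real.cos (θ j) - 2 * Real.cos (θ i)) := by
    rw [← Finset.prod_union]
    · congr 1
      ext i
      simp only [mem_union, mem_Ico, mem_erase, mem_range]
      omega
    · rw [Finset.disjoint_left]
      intro i h1 h2
      simp only [mem_Ico, mem_erase, mem_range] at h1 h2
      omega
  have h := der_full M j hjM θ hθ
  rw [c1, s1, s3]
  rw [← s5] at h
  linear_combination (-1) ^ k * h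

end Pool.Agent.H14.CYC
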