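import Mathlib
import Pool.Agent.H62.CYC.DefsQ
import Pool.Agent.H14.CYC.Res0

/-!
# Project CYC, second part, module RES1
-/

set_option autoImplicit false

namespace Pool.Agent.H14.CYC

open Finset Pool.Agent.H62.CYC
open Pool.Agent.W707.TV (Rh)
open scoped Real

/-- the coefficient of the term -/
theorem coeff_id (p M j : ℕ) (hj : j < M) :
    tp p M (M - 1 - j) = Complex.exp (Complex.I * p * Rh M * (ps M j : ℂ) ^ 2 / (8 * π)) := by
  have c1 : ((M - 1 - j : ℕ) : ℂ) + 1 = M - j := by
    have : (M - 1 - j) + 1 + j = M := by omega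
    have h := congrArg (fun n : ℕ => (n : ℂ)) this
    push_cast at h
    linear_combination h
  have hr : (2 * (M : ℂ) + 1) ≠ 0 := by exact_mod_cast (Nat.succ_ne_zero (2 * M))
  have hpi : (π : ℂ) ≠ 0 := by exact_mod_cast Real.pi_ne_zero
  unfold tp ps Rh
  rw [c1]
  congr 1
  push_cast
  field_simp
  ring

/-- **RES1** -/
theorem res1 : S_RES1 := by
  intro p M k hk hk2
  have hsum : tau M (tp p M) k = ((-1) ^ k * (2 * M + 1)) * Sres p M k := by
    unfold tau Sres
    rw [← Finset.sum_range_reflect]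
    have hsub : range (M - k) ⊆ range M := Finset.range_subset_range.2 (Nat.sub_le _ _)
    rw [← Finset.sum_subset hsub, Finset.mul_sum]
    · refine Finset.sum_congr rfl fun j hj => ?_
      rw [Finset.mem_range] at hj
      have hjM : j < M := lt_of_lt_of_le hj (Nat.sub_le _ _)
      rw [coeff_id p M j hjM]
      have h := term_id M k j hk.le hj (ps M) (fun i => rfl)
      have h2 : (((sg M (((M - 1 - j : ℕ) : ℝ) + 1) ^ 2 * ∏ l ∈ range k,
          (yy M (((M - 1 - j : ℕ) : ℝ) + 1) - yy M ((l : ℝ) + 1)) : ℝ) : ℂ)) *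
          (2 * Complex.cos (ps M j / 2)) *
          ∏ i ∈ (range (M - k)).erase j, (2 * Complex.cos (ps M j) - 2 * Complex.cos (ps M i)) =
          (-1) ^ k * (2 * M + 1) := by
        have h3 := congrArg (fun x : ℝ => (x : ℂ)) h
        unfold sg yy
        push_cast at h3 ⊢
        exact h3
      have hne : ((-1 : ℂ)) ^ k * (2 * M + 1) ≠ 0 := by
        refine mul_ne_zero (pow_ne_zero _ (by norm_num)) ?_
        exact_mod_cast (Nat.succ_ne_zero (2 * M))
      rw [← h2] at hne ⊢
      have hn1 := (mul_ne_zero_iff.1 hne).2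
      have hn2 := (mul_ne_zero_iff.1 (mul_ne_zero_iff.1 hne).1).2
      generalize (∏ i ∈ (range (M - k)).erase j,
        (2 * Complex.cos (ps M j) - 2 * Complex.cos (ps M i))) = P at hn1 ⊢
      generalize (2 * Complex.cos (ps M j / 2)) = Q at hn2 ⊢
      field_simp
    · intro j hj hj2
      rw [Finset.mem_range] at hj hj2
      have h1 : M - 1 - j ∈ range k := Finset.mem_range.2 (by omega)
      rw [Finset.prod_eq_zero h1 (sub_self _), mul_zero]
      simp
  rw [hsum, norm_mul, norm_mul, norm_pow, norm_neg, norm_one, one_pow, one_mul]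
  congr 1
  rw [show (2 * (M : ℂ) + 1) = (((2 * M + 1 : ℕ) : ℝ) : ℂ) by push_cast; ring, Complex.norm_real,
    Real.norm_of_nonneg (by positivity)]
  push_cast
  ring

end Pool.Agent.H14.CYC
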